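import Mathlib
import Pool.Agent.CrNM.Main

/-!
# The number of components of the closure of `σ_{-r}(ℕ)` is not monotone in `r`

For `r > 1` let `C r` be the number of connected components of the closure of the set of the values
`σ_{-r}(n) = ∑_{d ∣ n} d^{-r}`, `n = 1, 2, 3, ...`. We prove `C (69/16) = 253` and
`C (13/3) = 252`, so that `C` is not monotone on `(1, ∞)`.

Outline (helper files `Pool/Agent/CrNM/`).
* `Rough`: for `r ≤ 13/3` the closure of `σ_{-r}` on integers without prime factors `≤ 19` is an
  interval `[1, T]` (greedy expansion; the needed inequality on primes is proved in `Tail`, for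
  large primes with the Chebyshev bounds, for small ones by explicit blocks of primes).
* `Types`: the closure of the full image is the union of 960 explicit intervals, indexed by the
  exponents of `2, 3, 5, ..., 19` (capped at `4, 2, 1, ..., 1`).
* `Enc`, `ZBound`: rational enclosures of the endpoints, by integer arithmetic.
* `Count`, `Main`: the number of components is found by a scan of the sorted list of intervals.
-/

namespace Pool.Agent.Results.MP_9329f2_nt.NotMonotone

/-- The divisor function `σ_{-r}(n) = ∑_{d ∣ n} d^{-r}`. -/
noncomputable def sigmaNeg (r : ℝ) (n : ℕ) : ℝ := ∑ d ∈ n.divisors, (d : ℝ) ^ (-r)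

/-- The closure in `ℝ` of the set of all `σ_{-r}(n)`, `n = 1, 2, 3, ...`. -/
def closureImage (r : ℝ) : Set ℝ := closure (sigmaNeg r '' {n : ℕ | 1 ≤ n})

/-- `C_r`: the number of connected components of `closureImage r`
(with the convention of `Nat.card` that this is `0` if there are infinitely many). -/
noncomputable def compCount (r : ℝ) : ℕ := Nat.card (ConnectedComponents (closureImage r))

/-- `C_{69/16} = 253` and `C_{13/3} = 252` (both being finite), so `r ↦ C_r` is not monotone. -/
theorem result :
    (∃ r s : ℝ, 1 < r ∧ r < s ∧ Finite (ConnectedComponents (closureImage r)) ∧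
      Finite (ConnectedComponents (closureImage s)) ∧ compCount s < compCount r) ∧
    compCount (69 / 16) = 253 ∧ compCount (13 / 3) = 252 ∧
    ¬ MonotoneOn compCount (Set.Ioi 1) := by
  have hA : compCount (13 / 3) = 252 := by
    have h := CrNM.cardA
    push_cast at h
    exact h
  have hB : compCount (69 / 16) = 253 := by
    have h := CrNM.cardB
    push_cast at h
    exact h
  have hr : (69 / 16 : ℝ) < 13 / 3 := by norm_num
  refine ⟨⟨69 / 16, 13 / 3, by norm_num, hr, ?_, ?_, ?_⟩, hB, hA, ?_⟩
  · exact Nat.finite_of_card_ne_zero (by
      have : Nat.card (ConnectedComponents (closureImage (69 / 16))) = 253 := hB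
      rw [this]; norm_num)
  · exact Nat.finite_of_card_ne_zero (by
      have : Nat.card (ConnectedComponents (closureImage (13 / 3))) = 252 := hA
      rw [this]; norm_num)
  · rw [hA, hB]; norm_num
  · intro hmono
    have h := hmono (a := 69 / 16) (b := 13 / 3) (by norm_num) (by norm_num) hr.le
    rw [hA, hB] at h
    norm_num at h

end Pool.Agent.Results.MP_9329f2_nt.NotMonotone
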